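import Pool.Agent.Work.MP_dd0b6b_nt.Main

namespace Pool.Agent.Results.MP_dd0b6b_nt.AllOrders

open Finset Pool.Agent.Work.MP_dd0b6b_nt

/-- The class of the square of `r = sqrt D_p^(m)` modulo `2d`-th powers, for every odd `m`
and every divisor `d` of `(p-1)/2`. -/
theorem result (p : ℕ) [Fact p.Prime] (hp4 : p % 4 = 1) (m h d : ℕ) (hh : h < (p - 1) / 2)
    (hm : m + 1 ≡ 2 * h [MOD p - 1]) (hd : d ∣ (p - 1) / 2) :
    ∃ z : ZMod p, z ≠ 0 ∧ ((Int.sqrt (sunDet m p) : ℤ) : ZMod p) ^ 2 =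
      (-1) ^ (h + 1 + (d + 1) / 2) * ((legendreSym p d : ℤ) : ZMod p) ^ (d + 1) *
        ((legendreSym p (∏ i ∈ range (2 * h - 1), (2 * (i : ℤ) + 1)) : ℤ) : ZMod p) *
        kappa (ZMod p) h ^ 2 * ((blocks d ((p - 1) / 2 / d) : ℕ) : ZMod p) * z ^ (2 * d) :=
  main hp4 m h d hh hm hd

end Pool.Agent.Results.MP_dd0b6b_nt.AllOrders
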